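import Pool.Graph.R_seed8.Y163.Pow
import Pool.Graph.R_seed8.W536.RBase
import Pool.Graph.R_seed8.R940.Wrd

/-!
# External products on the powers of a variety
-/

set_option autoImplicit false
set_option linter.unusedSectionVars false
set_option linter.unusedVariables false

open CategoryTheory AlgebraicGeometry Finset

universe u v w

namespace Pool.Agent.H858.FC

open Pool.Agent.H914 hiding iter map_iter
open Pool.Agent.H447 Pool.Agent.W534 VarClass Obj WeilCohomology
open Pool.Agent.H281R3.HT Pool.Agent.W536.RR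
open Pool.Agent.Y163 (pw pr tup tup_pr pw_hom_ext pr_zero_succ pr_succ dim_pw)
open Pool.Agent.R940 (gen_semi gen_bilin)

variable {k : Type u} [Field k] {𝒱 : VarClass k} {ops : CycleOps 𝒱}
  {W : WeilCohomology.{u, v} ops} {X Y Z Z' : 𝒱.Obj}

/-- The external product of the classes `x i`. -/
noncomputable def PP (W : WeilCohomology.{u, v} ops) (X : 𝒱.Obj) :
    ∀ n, (Fin (n + 1) → W.H X) → W.H (pw X n)
  | 0, x => x 0
  | n + 1, x => W.map (fst X (pw X n)) (x 0) * W.map (snd X (pw X n)) (PP W X n (Fin.tail x))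

theorem PP_eq : ∀ (n : ℕ) (x : Fin (n + 1) → W.H X),
    PP W X n x = (List.ofFn fun i => W.map (pr X n i) (x i)).prod
  | 0, x => by
    rw [List.ofFn_succ, List.ofFn_zero, List.prod_cons, List.prod_nil, mul_one]
    exact (W.map_id _ _).symm
  | n + 1, x => by
    rw [PP, List.ofFn_succ, List.prod_cons, PP_eq n, map_list_prod, List.map_ofFn]
    congr 2
    congr 1
    funext j
    rw [Function.comp_apply, ← W.map_comp]
    rfl

theorem PP_gr : ∀ (n : ℕ) {x : Fin (n + 1) → W.H X} {d : Fin (n + 1) → ℕ}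
    (_ : ∀ i, x i ∈ W.gr X (d i)), PP W X n x ∈ W.gr (pw X n) (∑ i, d i)
  | 0, x, d, h => by
    rw [Fin.sum_univ_one]
    exact h 0
  | n + 1, x, d, h => by
    rw [Fin.sum_univ_succ, PP]
    exact W.mul_mem (W.map_mem _ (h 0)) (W.map_mem _ (PP_gr n fun i => h i.succ))

theorem PP_mul : ∀ (n : ℕ) {x y : Fin (n + 1) → W.H X} {d e : Fin (n + 1) → ℕ}
    (_ : ∀ i, x i ∈ W.gr X (d i)) (_ : ∀ i, y i ∈ W.gr X (e i)),
    ∃ ε : W.K, ε ≠ 0 ∧ PP W X n x * PP W X n y = ε • PP W X n (fun i => x i * y i)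
  | 0, x, y, d, e, _, _ => ⟨1, one_ne_zero, by rw [one_smul]; rfl⟩
  | n + 1, x, y, d, e, hx, hy => by
    obtain ⟨ε, hε, h⟩ := PP_mul n (x := Fin.tail x) (y := Fin.tail y) (fun i => hx i.succ)
      (fun i => hy i.succ)
    have h1 := W.comm (W.map_mem (snd X (pw X n)) (PP_gr n (x := Fin.tail x) fun i => hx i.succ))
      (W.map_mem (fst X (pw X n)) (hy 0))
    set a := W.map (fst X (pw X n)) (x 0) with ha
    set b := W.map (snd X (pw X n)) (PP W X n (Fin.tail x)) with hb
    set a' := W.map (fst X (pw X n)) (y 0) with ha'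
    set b' := W.map (snd X (pw X n)) (PP W X n (Fin.tail y)) with hb'
    set s : W.K := (-1) ^ ((∑ i : Fin (n + 1), d i.succ) * e 0) with hs
    have hs0 : s ≠ 0 := pow_ne_zero _ (neg_ne_zero.2 one_ne_zero)
    refine ⟨s * ε, mul_ne_zero hs0 hε, ?_⟩
    change a * b * (a' * b') = (s * ε) • (W.map (fst X (pw X n)) (x 0 * y 0) *
      W.map (snd X (pw X n)) (PP W X n (fun i => Fin.tail x i * Fin.tail y i)))
    calc a * b * (a' * b') = a * (b * a') * b' := by rw [mul_assoc, mul_assoc, mul_assoc]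
      _ = s • (a * a' * (b * b')) := by
        rw [h1, mul_smul_comm, smul_mul_assoc]
        congr 1
        rw [mul_assoc, mul_assoc, mul_assoc]
      _ = s • (a * a' * (ε • W.map (snd X (pw X n))
          (PP W X n (fun i => Fin.tail x i * Fin.tail y i)))) := by
        have h2 : b * b' = ε • W.map (snd X (pw X n))
            (PP W X n (fun i => Fin.tail x i * Fin.tail y i)) := by
          rw [hb, hb', ← map_mul, h, map_smul]
        rw [h2]
      _ = _ := by
        have h3 : a * a' = W.map (fst X (pw X n)) (x 0 * y 0) := by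
          rw [ha, ha', ← map_mul]
        rw [mul_smul_comm, smul_smul, h3]

theorem tr_PP : ∀ (n : ℕ) (x : Fin (n + 1) → W.H X),
    W.tr (pw X n) (PP W X n x) = ∏ i, W.tr X (x i)
  | 0, x => by
    rw [Fin.prod_univ_one]
    rfl
  | n + 1, x => by
    rw [Fin.prod_univ_succ, ← show _ = ∏ i : Fin (n + 1), W.tr X (x i.succ) from tr_PP n (Fin.tail x)]
    exact W.tr_prod _ _

theorem PP_alg (n : ℕ) {x : Fin (n + 1) → W.H X} (h : ∀ i, x i ∈ algSpan W X) :
    PP W X n x ∈ algSpan W (pw X n) := by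
  induction n with
  | zero => exact h 0
  | succ n ih =>
    rw [PP]
    exact algSpan_mul (algSpan_map _ (h 0)) (algSpan_map _ (ih fun i => h i.succ))


end Pool.Agent.H858.FC
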