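import Pool.Agent.H858.FC.Prod
import Pool.Graph.R_pool_sql_team_seeded_b0a926ef.R936.Hel.Geo2

/-!
# Lifting of Tate classes, and algebraicity of the words of degree one
-/

set_option autoImplicit false
set_option linter.unusedSectionVars false
set_option linter.unusedVariables false

open CategoryTheory AlgebraicGeometry Finset Filter

universe u v w

namespace Pool.Agent.H858.FC

section Lin

variable {K V V' : Type*} [Field K] [AddCommGroup V] [Module K V] [AddCommGroup V'] [Module K V']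
  [FiniteDimensional K V] [FiniteDimensional K V']

/-- Generalised eigenvectors in the image of an equivariant map have preimages which are generalised
eigenvectors. -/
theorem lift_lin {T : Module.End K V} {T' : Module.End K V'} {θ : V' →ₗ[K] V}
    (h : ∀ y, T (θ y) = θ (T' y)) (μ : K) {w : V} (hw : w ∈ T.maxGenEigenspace μ) {u : V'}
    (hu : θ u = w) : ∃ u' ∈ T'.maxGenEigenspace μ, θ u' = w := by
  have h1 : ∀ᶠ n in atTop, IsCompl (LinearMap.ker ((T' - μ • 1) ^ n))
      (LinearMap.range ((T' - μ • 1) ^ n)) := (T' - μ • 1).eventually_isCompl_ker_pow_range_pow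
  have h2 : ∀ᶠ n in atTop, Disjoint (LinearMap.ker ((T - μ • 1) ^ n))
      (LinearMap.range ((T - μ • 1) ^ n)) :=
    (T - μ • 1).eventually_isCompl_ker_pow_range_pow.mono fun n hn => hn.disjoint
  obtain ⟨N, hN⟩ := (Module.End.mem_maxGenEigenspace _ _ _).1 hw
  obtain ⟨n, hn1, hn2, hn3⟩ := (h1.and (h2.and (eventually_ge_atTop N))).exists
  have hkey : ∀ (n : ℕ) (x : V'), ((T - μ • 1) ^ n) (θ x) = θ (((T' - μ • 1) ^ n) x) := by
    intro n
    induction n with
    | zero => intro x; rfl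
    | succ n ih =>
      intro x
      have h3 : (T - μ • 1) (θ x) = θ ((T' - μ • 1) x) := by
        simp only [LinearMap.sub_apply, LinearMap.smul_apply, Module.End.one_apply, map_sub,
          map_smul, h]
      rw [pow_succ, pow_succ, Module.End.mul_apply, Module.End.mul_apply, h3, ih]
  obtain ⟨u1, hu1, u2, hu2, hu12⟩ := Submodule.mem_sup.1
    (show u ∈ LinearMap.ker ((T' - μ • 1) ^ n) ⊔ LinearMap.range ((T' - μ • 1) ^ n) by
      rw [hn1.sup_eq_top]
      exact Submodule.mem_top)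
  refine ⟨u1, (Module.End.mem_maxGenEigenspace _ _ _).2 ⟨n, LinearMap.mem_ker.1 hu1⟩, ?_⟩
  obtain ⟨v, rfl⟩ := hu2
  have h3 : θ (((T' - μ • 1) ^ n) v) = w - θ u1 := by
    rw [← hu, ← hu12, map_add]
    abel
  have h4 : w - θ u1 ∈ LinearMap.ker ((T - μ • 1) ^ n) := by
    rw [LinearMap.mem_ker, map_sub, hkey, LinearMap.mem_ker.1 hu1, map_zero, sub_zero]
    obtain ⟨r, rfl⟩ := Nat.exists_eq_add_of_le hn3
    rw [add_comm, pow_add, Module.End.mul_apply, hN, map_zero]
  have h5 : w - θ u1 ∈ LinearMap.range ((T - μ • 1) ^ n) := ⟨θ v, by rw [hkey, h3]⟩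
  have h6 := Submodule.disjoint_def.1 hn2 _ h4 h5
  exact (sub_eq_zero.1 h6).symm

end Lin

open Pool.Agent.H914 hiding iter map_iter
open Pool.Agent.H447 Pool.Agent.W534 VarClass Obj WeilCohomology
open Pool.Agent.H281R3.HT Pool.Agent.W536.RR
open Pool.Agent.Y163 (pw pr tup tup_pr pw_hom_ext pr_zero_succ pr_succ dim_pw)
open Pool.Agent.R940 (gen_semi gen_bilin ofFn_gen ofFn_gr frob_pr)

variable {k : Type u} [Field k] {𝒱 : VarClass k} {ops : CycleOps 𝒱}
  {W : WeilCohomology.{u, v} ops} {X A Y Z Z' : 𝒱.Obj} {p : ℕ} {Φ : FrobSystem W p}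

/-- Tate classes which are pull-backs are pull-backs of Tate classes. -/
theorem lift_gen (g : Z ⟶ Z') {s j : ℕ} (hs : 0 < s) {w : W.H Z} (hw : w ∈ genTate Φ Z s j)
    {u : W.H Z'} (hu : u ∈ W.gr Z' (2 * j)) (h : W.map g u = w) :
    ∃ s', 0 < s' ∧ ∃ u' ∈ genTate Φ Z' s' j, W.map g u' = w := by
  obtain ⟨a, b, ha, hb, hab, hcom⟩ := frob_comm Φ g
  refine ⟨b * s, Nat.mul_pos hb hs, ?_⟩
  have hμ : (card Φ Z (a * s) : W.K) ^ j = (card Φ Z' (b * s) : W.K) ^ j := by
    have h1 : card Φ Z (a * s) = card Φ Z' (b * s) := by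
      rw [Pool.Agent.W534.card, Pool.Agent.W534.card]
      congr 1
      calc Φ.e Z * (a * s) = a * Φ.e Z * s := by ring
        _ = Φ.e Z' * (b * s) := by rw [hab]; ring
    rw [h1]
  obtain ⟨u', hu', h'⟩ := lift_lin (T := frob Φ Z (a * s)) (T' := frobOn Φ Z' (b * s) (2 * j))
    (θ := (W.map g).toLinearMap ∘ₗ (W.gr Z' (2 * j)).subtype) (fun y => hcom s y)
    ((card Φ Z (a * s) : W.K) ^ j) (genTate_mono' Φ s a j hw).1 (u := ⟨u, hu⟩) h
  refine ⟨u', ⟨?_, u'.2⟩, h'⟩
  rw [hμ] at hu'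
  exact gen_semi (θ := (W.gr Z' (2 * j)).subtype) (g := frob Φ Z' (b * s)) (fun x => rfl) hu'

/-- External products of classes of degree one which are Tate classes are algebraic. -/
theorem alg_words (f : X ⟶ A) (hf : ∀ x ∈ W.gr X 1, ∃ a ∈ W.gr A 1, W.map f a = x) {j m : ℕ}
    (hjm : m + 1 = 2 * j) (hA : SemisimpleTateIn Φ (pw A m) j) (x : Fin (m + 1) → W.H X)
    (hx : ∀ i, x i ∈ W.gr X 1) (μ : Fin (m + 1) → W.K)
    (hμ : ∀ i, x i ∈ (frob Φ X 1).maxGenEigenspace (μ i)) {s : ℕ} (hs : 0 < s)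
    (hT : (∏ i, μ i) ^ s = ((p ^ Φ.e X : ℕ) : W.K) ^ (j * s)) :
    PP W X m x ∈ algSpan W (pw X m) := by
  choose a ha hfa using fun i => hf (x i) (hx i)
  obtain ⟨S, S', hS, hS', hSS, hcom⟩ := frob_pr Φ X m
  have hgr : ∀ (y : Fin (m + 1) → W.H X), (∀ i, y i ∈ W.gr X 1) →
      PP W X m y ∈ W.gr (pw X m) (2 * j) := by
    intro y hy
    have := PP_gr m (x := y) (d := fun _ => 1) hy
    rwa [sum_const, Finset.card_univ, Fintype.card_fin, smul_eq_mul, mul_one, hjm] at this
  have hgrA : PP W A m a ∈ W.gr (pw A m) (2 * j) := by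
    have := PP_gr m (x := a) (d := fun _ => 1) ha
    rwa [sum_const, Finset.card_univ, Fintype.card_fin, smul_eq_mul, mul_one, hjm] at this
  have h1 : PP W X m x ∈ genTate Φ (pw X m) (S * s) j := by
    refine ⟨?_, hgr x hx⟩
    have h2 := ofFn_gen Φ (Z := pw X m) (s := S * s) (fun i => W.map (pr X m i) (x i))
      (fun i => μ i ^ (S' * s)) (fun i => by
        refine gen_semi (f := frob Φ X (S' * s)) (θ := (W.map (pr X m i)).toLinearMap)
          (fun x => hcom i s x) ?_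
        have h1 := gen_mono (frob Φ X 1) (μ i) (S' * s) (hμ i)
        rwa [← frob_mul_eq, one_mul] at h1)
    rw [← PP_eq, prod_pow, mul_comm S', pow_mul, hT] at h2
    have h3 : (((p ^ Φ.e X : ℕ) : W.K) ^ (j * s)) ^ S' = (card Φ (pw X m) (S * s) : W.K) ^ j := by
      rw [Pool.Agent.W534.card, ← Nat.cast_pow, ← Nat.cast_pow, ← Nat.cast_pow, ← pow_mul,
        ← pow_mul, ← pow_mul]
      congr 2
      calc Φ.e X * (j * s * S') = (S' * Φ.e X) * (s * j) := by ring
        _ = Φ.e (pw X m) * (S * s) * j := by rw [← hSS]; ring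
    rw [h3] at h2
    exact h2
  have h4 : W.map (tup m fun i => pr X m i ≫ f) (PP W A m a) = PP W X m x := by
    rw [PP_eq, PP_eq, map_list_prod, List.map_ofFn]
    congr 2
    funext i
    rw [Function.comp_apply, ← W.map_comp, tup_pr, W.map_comp, hfa]
  obtain ⟨s', hs', u', hu', h5⟩ := lift_gen (Φ := Φ) _ (Nat.mul_pos hS hs) h1 hgrA h4
  rw [← h5]
  exact algSpan_map _ (Pool.Agent.R936.span_le_algSpan (hA s' hs' hu'))

/-- Products of pull-backs of classes of degree one which are Tate classes are algebraic. -/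
theorem alg_list (f : X ⟶ A) (hf : ∀ x ∈ W.gr X 1, ∃ a ∈ W.gr A 1, W.map f a = x) {j m : ℕ}
    (hjm : m + 1 = 2 * j) (hA : SemisimpleTateIn Φ (pw A m) j)
    (L : List ((Z ⟶ X) × W.H X × W.K)) (hlen : L.length = m + 1)
    (hx : ∀ y ∈ L, y.2.1 ∈ W.gr X 1)
    (hμ : ∀ y ∈ L, y.2.1 ∈ (frob Φ X 1).maxGenEigenspace y.2.2) {s : ℕ} (hs : 0 < s)
    (hT : (L.map fun y => y.2.2).prod ^ s = ((p ^ Φ.e X : ℕ) : W.K) ^ (j * s)) :
    (L.map fun y => W.map y.1 y.2.1).prod ∈ algSpan W Z := by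
  obtain ⟨l, rfl⟩ : ∃ l : Fin (m + 1) → (Z ⟶ X) × W.H X × W.K, L = List.ofFn l := by
    refine ⟨fun i => L.get (i.cast hlen.symm), ?_⟩
    apply List.ext_getElem
    · rw [List.length_ofFn, hlen]
    · intro i hi hi'
      rw [List.getElem_ofFn]
      rfl
  have h1 := alg_words f hf hjm hA (fun i => (l i).2.1) (fun i => hx _ (List.mem_ofFn.2 ⟨i, rfl⟩))
    (fun i => (l i).2.2) (fun i => hμ _ (List.mem_ofFn.2 ⟨i, rfl⟩)) hs (by
      rw [← hT, List.map_ofFn, List.prod_ofFn]
      rfl)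
  have h2 := algSpan_map (tup m fun i => (l i).1) h1
  rw [PP_eq, map_list_prod, List.map_ofFn] at h2
  rw [List.map_ofFn]
  have h3 : (fun i => W.map (tup m fun i => (l i).1) (W.map (pr X m i) (l i).2.1)) =
      (fun i => W.map (l i).1 (l i).2.1) := by
    funext i
    rw [← W.map_comp, tup_pr]
  have h4 : (List.ofFn (fun i => W.map (tup m fun i => (l i).1) (W.map (pr X m i) (l i).2.1))).prod ∈
      algSpan W Z := h2
  rw [h3] at h4
  exact h4

theorem prod_filter_one {M α : Type*} [Monoid M] (q : α → Prop) [DecidablePred q] (a : α → M)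
    (h : ∀ t, ¬ q t → a t = 1) : ∀ L : List α, (L.map a).prod = ((L.filter q).map a).prod
  | [] => rfl
  | t :: L => by
    rw [List.map_cons, List.prod_cons, prod_filter_one q a h L, List.filter_cons]
    by_cases ht : q t
    · rw [if_pos (by simpa using ht), List.map_cons, List.prod_cons]
    · rw [if_neg (by simpa using ht), h t ht, one_mul]

/-- External products of classes of degree one and of units. -/
theorem alg_PP (f : X ⟶ A) (hf : ∀ x ∈ W.gr X 1, ∃ a ∈ W.gr A 1, W.map f a = x) {j m : ℕ}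
    (hjm : m + 1 = 2 * j) (hA : SemisimpleTateIn Φ (pw A m) j) {n : ℕ} (S : Finset (Fin (n + 1)))
    (hS : S.card = 2 * j) (x : Fin (n + 1) → W.H X) (hx1 : ∀ t, t ∉ S → x t = 1)
    (hx : ∀ t ∈ S, x t ∈ W.gr X 1) (μ : Fin (n + 1) → W.K)
    (hμ : ∀ t ∈ S, x t ∈ (frob Φ X 1).maxGenEigenspace (μ t)) {s : ℕ} (hs : 0 < s)
    (hT : (∏ t ∈ S, μ t) ^ s = ((p ^ Φ.e X : ℕ) : W.K) ^ (j * s)) :
    PP W X n x ∈ algSpan W (pw X n) := by
  classical
  set F : List (Fin (n + 1)) := (List.finRange (n + 1)).filter (fun t => t ∈ S) with hF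
  have hFS : F.toFinset = S := by
    ext t
    rw [List.mem_toFinset, hF, List.mem_filter]
    simp
  have hFn : F.Nodup := (List.nodup_finRange _).filter _
  have h1 : PP W X n x = (F.map fun t => W.map (pr X n t) (x t)).prod := by
    rw [PP_eq, ← prod_filter_one (fun t => t ∈ S) (fun t => W.map (pr X n t) (x t))
      (fun t ht => by rw [hx1 t ht, map_one]), List.ofFn_eq_map]
  have h2 := alg_list (Z := pw X n) f hf hjm hA (F.map fun t => (pr X n t, x t, μ t)) (by
      rw [List.length_map, ← List.toFinset_card_of_nodup hFn, hFS, hS, hjm]) (by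
      intro y hy
      obtain ⟨t, ht, rfl⟩ := List.mem_map.1 hy
      exact hx t (by rwa [← hFS, List.mem_toFinset])) (by
      intro y hy
      obtain ⟨t, ht, rfl⟩ := List.mem_map.1 hy
      exact hμ t (by rwa [← hFS, List.mem_toFinset])) hs (by
      rw [List.map_map, ← hT, ← hFS, List.prod_toFinset _ hFn]
      rfl)
  rw [List.map_map] at h2
  rw [h1]
  exact h2

end Pool.Agent.H858.FC
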